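import Pool.Agent.Q49.TG.TrekMain

/-!
# The vanishing ideal of a Gaussian DAG model is toric iff it is the shortest trek ideal

The definitions (labelled DAGs, simple treks, the simple trek rule `φ_G`, `I_G = ker φ_G`, the
shortest trek map `ψ_G`, `ST_G = ker ψ_G`, toric ideals) are in `Pool.Agent.Q49.TG.TrekDef`.
-/

set_option autoImplicit false

namespace Pool.Agent.Results.MP_3f84da_ag.ToricIffShortestTrek

open Q49.TG

/-- For every DAG `G` the following are equivalent: the vanishing ideal `I_G` is toric (the kernel
of a homomorphism sending each `σ_{ij}` to a monomial or to `0`); `I_G` is generated by polynomials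
with at most two terms; `ψ_G` is defined and `I_G = ST_G`. -/
theorem result (n : ℕ) (G : Dag n) :
    List.TFAE [
      IsToricKer G.vanishingIdeal,
      ∃ S : Set (MvPolynomial (Pairs n) ℂ), (∀ f ∈ S, f.support.card ≤ 2) ∧
        G.vanishingIdeal = Ideal.span S,
      G.PsiDefined ∧ G.vanishingIdeal = G.shortestTrekIdeal] := by
  tfae_have 1 → 2 := toric_two
  tfae_have 2 → 3 := fun ⟨_, hS, hI⟩ => Dag.main hS hI
  tfae_have 3 → 1 := fun h => by
    rw [h.2]
    exact Dag.toric_st
  tfae_finish

end Pool.Agent.Results.MP_3f84da_ag.ToricIffShortestTrek
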